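import Pool.Agent.Helper8.CD.Rad
import Pool.Graph.R_pool_sql_team_seeded_63374d34.N2.GA.RadKZ

/-!
# The inequality for `a b̄` and `ā b`
-/

set_option autoImplicit false

namespace Pool.Agent.Helper8.CD

open NumberField IsDedekindDomain Pool.Agent.N251.GA Pool.Agent.N186.GANF Pool.Agent.N564.GASymK

variable {K : Type} [Field K] [NumberField K]

/-- the abc inequality for pairs with the same norm -/
def NormAbc (K : Type) [Field K] [NumberField K] : Prop :=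
  ∀ ε : ℝ, 0 < ε → ∃ C : ℝ, ∀ x y : 𝓞 K, IsCoprime x y → x ≠ 0 → y ≠ 0 → x ≠ y →
    Algebra.norm ℤ x = Algebra.norm ℤ y →
    ∏ χ : K →+* ℂ, max ‖χ x‖ ‖χ y‖ ≤ C * radK (x * y * (x - y)) ^ (1 + ε)

/-- the size of `(a b̄, ā b)` -/
noncomputable def MM (φ ψ : K →+* ℂ) (a b : 𝓞 K) : ℝ :=
  max (‖φ a‖ * ‖ψ b‖) (‖ψ a‖ * ‖φ b‖)

omit [NumberField K] in
theorem MM_nonneg (φ ψ : K →+* ℂ) (a b : 𝓞 K) : 0 ≤ MM φ ψ a b :=
  le_max_of_le_left (by positivity)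

theorem pair (h : NormAbc K) (τ : 𝓞 K ≃+* 𝓞 K) {φ ψ : K →+* ℂ}
    (h1 : ∀ x : 𝓞 K, ψ (x : K) = φ ((τ x : 𝓞 K) : K))
    (h2 : ∀ x : 𝓞 K, φ (x : K) = ψ ((τ x : 𝓞 K) : K))
    (h3 : ∀ f : (K →+* ℂ) → ℝ, ∏ χ, f χ = f φ * f ψ) :
    ∀ ε : ℝ, 0 < ε → ∃ C : ℝ, 1 ≤ C ∧ ∀ a b g x y : 𝓞 K, a ≠ 0 → b ≠ 0 → g ≠ 0 →
      a * τ b = g * x → τ a * b = g * y → IsCoprime x y → x ≠ y →
      MM φ ψ a b ^ 2 ≤ C * (∏ χ : K →+* ℂ, ‖χ g‖) * (radK (a * b) ^ 2 * radK (x - y)) ^ (1 + ε) := by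
  intro ε hε
  obtain ⟨C, hC⟩ := h ε hε
  refine ⟨max C 1, le_max_right _ _, ?_⟩
  intro a b g x y ha hb hg hx hy hcop hxy
  have hτa : τ a ≠ 0 := fun h => ha (τ.injective (by rw [h, map_zero]))
  have hτb : τ b ≠ 0 := fun h => hb (τ.injective (by rw [h, map_zero]))
  have hx0 : x ≠ 0 := by
    rintro rfl
    rw [mul_zero] at hx
    exact mul_ne_zero ha hτb hx
  have hy0 : y ≠ 0 := by
    rintro rfl
    rw [mul_zero] at hy
    exact mul_ne_zero hτa hb hy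
  have hN : Algebra.norm ℤ x = Algebra.norm ℤ y := by
    have e1 := congrArg (Algebra.norm ℤ) hx
    have e2 := congrArg (Algebra.norm ℤ) hy
    rw [map_mul, map_mul, norm_tau] at e1 e2
    have hg0 : Algebra.norm ℤ g ≠ 0 := Algebra.norm_ne_zero_iff.2 hg
    apply mul_left_cancel₀ hg0
    rw [← e1, ← e2]
  have a1 := hC x y hcop hx0 hy0 hxy hN
  -- the size
  have a2 : MM φ ψ a b ^ 2 = (∏ χ : K →+* ℂ, ‖χ g‖) * ∏ χ : K →+* ℂ, max ‖χ x‖ ‖χ y‖ := by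
    have e1 : ∀ χ : K →+* ℂ, ‖χ g‖ * max ‖χ x‖ ‖χ y‖ =
        max ‖χ ((a * τ b : 𝓞 K) : K)‖ ‖χ ((τ a * b : 𝓞 K) : K)‖ := by
      intro χ
      rw [hx, hy, mul_max_of_nonneg _ _ (norm_nonneg _)]
      simp only [map_mul, norm_mul]
    rw [← Finset.prod_mul_distrib, Finset.prod_congr rfl fun χ _ => e1 χ, h3, sq]
    congr 1
    · simp only [map_mul, norm_mul]
      rw [← h1 b, ← h1 a]
      rfl
    · simp only [map_mul, norm_mul]
      rw [← h2 b, ← h2 a]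
      rw [max_comm]
      rfl
  have hG : 1 ≤ ∏ χ : K →+* ℂ, ‖χ g‖ := one_le_norm g hg
  have hab : a * b ≠ 0 := mul_ne_zero ha hb
  have hτab : τ a * τ b ≠ 0 := mul_ne_zero hτa hτb
  have hxy0 : x - y ≠ 0 := sub_ne_zero.2 hxy
  -- the radical
  have a3 : radK (x * y * (x - y)) ≤ radK (a * b) ^ 2 * radK (x - y) := by
    refine (radK_mul_le _ _ (mul_ne_zero hx0 hy0) hxy0).trans ?_
    refine mul_le_mul_of_nonneg_right ?_ (zero_le_one.trans (radK_one_le _))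
    have e1 : radK (x * y) ≤ radK ((a * b) * (τ a * τ b)) := by
      refine radK_mono _ _ 1 (mul_ne_zero hab hτab) ?_
      rw [pow_one]
      refine ⟨g * g, ?_⟩
      have : (a * b) * (τ a * τ b) = (a * τ b) * (τ a * b) := by ring
      rw [this, hx, hy]
      ring
    refine e1.trans ((radK_mul_le _ _ hab hτab).trans (le_of_eq ?_))
    rw [← map_mul, radK_tau, sq]
  have hr0 : 0 ≤ radK (x * y * (x - y)) := zero_le_one.trans (radK_one_le _)
  have hpow : radK (x * y * (x - y)) ^ (1 + ε) ≤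
      (radK (a * b) ^ 2 * radK (x - y)) ^ (1 + ε) :=
    Real.rpow_le_rpow hr0 a3 (by linarith)
  have hp0 : 0 ≤ radK (x * y * (x - y)) ^ (1 + ε) := Real.rpow_nonneg hr0 _
  have a4 : ∏ χ : K →+* ℂ, max ‖χ x‖ ‖χ y‖ ≤
      max C 1 * (radK (a * b) ^ 2 * radK (x - y)) ^ (1 + ε) := by
    refine a1.trans ?_
    exact mul_le_mul (le_max_left _ _) hpow hp0 (le_max_of_le_right zero_le_one)
  rw [a2]
  calc (∏ χ : K →+* ℂ, ‖χ g‖) * ∏ χ : K →+* ℂ, max ‖χ x‖ ‖χ y‖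
      ≤ (∏ χ : K →+* ℂ, ‖χ g‖) *
        (max C 1 * (radK (a * b) ^ 2 * radK (x - y)) ^ (1 + ε)) :=
        mul_le_mul_of_nonneg_left a4 (by linarith)
    _ = _ := by ring

theorem sq_bound {M X C ε : ℝ} (hX : 0 ≤ X) (hC : 1 ≤ C) (hε : 0 < ε)
    (h : M ^ 2 ≤ C * (5 * X ^ 2) ^ (1 + ε)) : M ≤ (C * 5 ^ (1 + ε)) * X ^ (1 + ε) := by
  have h5 : (1 : ℝ) ≤ 5 ^ (1 + ε) := Real.one_le_rpow (by norm_num) (by linarith)
  have hD : 1 ≤ C * 5 ^ (1 + ε) := by nlinarith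
  have hXp : 0 ≤ X ^ (1 + ε) := Real.rpow_nonneg hX _
  rw [Real.mul_rpow (by norm_num) (by positivity), sq_rpow hX] at h
  have h6 : M ^ 2 ≤ ((C * 5 ^ (1 + ε)) * X ^ (1 + ε)) ^ 2 := by
    refine h.trans ?_
    have e : ((C * 5 ^ (1 + ε)) * X ^ (1 + ε)) ^ 2 =
        (C * 5 ^ (1 + ε)) * ((C * 5 ^ (1 + ε)) * (X ^ (1 + ε)) ^ 2) := by ring
    rw [e]
    have e2 : C * (5 ^ (1 + ε) * (X ^ (1 + ε)) ^ 2) = 1 * ((C * 5 ^ (1 + ε)) * (X ^ (1 + ε)) ^ 2) := by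
      ring
    rw [e2]
    exact mul_le_mul_of_nonneg_right hD (by positivity)
  exact (abs_le_of_sq_le_sq' h6 (by positivity)).2

/-- the bound with `|m|`, and the bound with the radical of `m` if `a b̄` and `ā b` are coprime -/
theorem pair_m [IsPrincipalIdealRing (𝓞 K)] (h : NormAbc K) (hfin : Module.finrank ℚ K = 2)
    {r : 𝓞 K} (hr : r ^ 2 = 5) (τ : 𝓞 K ≃+* 𝓞 K) {φ ψ : K →+* ℂ}
    (h1 : ∀ x : 𝓞 K, ψ (x : K) = φ ((τ x : 𝓞 K) : K))
    (h2 : ∀ x : 𝓞 K, φ (x : K) = ψ ((τ x : 𝓞 K) : K))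
    (h3 : ∀ f : (K →+* ℂ) → ℝ, ∏ χ, f χ = f φ * f ψ) :
    ∀ ε : ℝ, 0 < ε → ∃ C : ℝ, 1 ≤ C ∧ ∀ (a b : 𝓞 K) (m : ℤ), a ≠ 0 → b ≠ 0 → m ≠ 0 →
      a * τ b - τ a * b = m * r →
      MM φ ψ a b ≤ C * (radK (a * b) * |(m : ℝ)|) ^ (1 + ε) ∧
      (IsCoprime (a * τ b) (τ a * b) → MM φ ψ a b ≤ C * (radK (a * b) * radZ m) ^ (1 + ε)) := by
  intro ε hε
  obtain ⟨C, hC1, hC⟩ := pair h τ h1 h2 h3 ε hε
  have h5 : (1 : ℝ) ≤ 5 ^ (1 + ε) := Real.one_le_rpow (by norm_num) (by linarith)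
  refine ⟨C * 5 ^ (1 + ε), by nlinarith, ?_⟩
  intro a b m ha hb hm hab
  have hmr : (m : 𝓞 K) * r ≠ 0 := mul_ne_zero (by exact_mod_cast hm) (r_ne hr)
  have hτb : τ b ≠ 0 := fun h => hb (τ.injective (by rw [h, map_zero]))
  have hR0 : 0 ≤ radK (a * b) := zero_le_one.trans (radK_one_le _)
  constructor
  · obtain ⟨g, x, y, hg, hx, hy, hcop⟩ := exists_gcd (y := τ a * b) (mul_ne_zero ha hτb)
    have hgxy : g * (x - y) = m * r := by
      rw [← hab, hx, hy]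
      ring
    have hxy : x ≠ y := by
      rintro rfl
      rw [sub_self, mul_zero] at hgxy
      exact hmr hgxy.symm
    have a1 := hC a b g x y ha hb hg hx hy hcop hxy
    have hxy0 : x - y ≠ 0 := sub_ne_zero.2 hxy
    have hG : 1 ≤ ∏ χ : K →+* ℂ, ‖χ g‖ := one_le_norm g hg
    obtain ⟨G, hGe⟩ : ∃ G : ℝ, G = ∏ χ : K →+* ℂ, ‖χ g‖ := ⟨_, rfl⟩
    obtain ⟨D, hDe⟩ : ∃ D : ℝ, D = ∏ χ : K →+* ℂ, ‖χ ((x - y : 𝓞 K) : K)‖ := ⟨_, rfl⟩
    have hD : 1 ≤ D := by rw [hDe]; exact one_le_norm _ hxy0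
    have hGD : G * D = 5 * |(m : ℝ)| ^ 2 := by
      rw [hGe, hDe, ← Finset.prod_mul_distrib]
      have e1 : ∀ χ : K →+* ℂ, ‖χ g‖ * ‖χ ((x - y : 𝓞 K) : K)‖ =
          ‖χ ((m : 𝓞 K) : K)‖ * ‖χ (r : K)‖ := by
        intro χ
        have e2 : χ (g : K) * χ ((x - y : 𝓞 K) : K) = χ ((m : 𝓞 K) : K) * χ (r : K) := by
          have := congrArg (fun z : 𝓞 K => χ (z : K)) hgxy
          simp only [map_mul] at this ⊢
          exact this
        rw [← norm_mul, e2, norm_mul]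
      rw [Finset.prod_congr rfl fun χ _ => e1 χ, Finset.prod_mul_distrib, prod_int hfin,
        prod_r hfin hr]
      ring
    rw [← hGe] at hG a1
    have hrD : radK (x - y) ≤ D := by rw [hDe]; exact radK_le _ hxy0
    apply sq_bound (by positivity) hC1 hε
    refine a1.trans ?_
    have b1 : (radK (a * b) ^ 2 * radK (x - y)) ^ (1 + ε) ≤
        (radK (a * b) ^ 2 * D) ^ (1 + ε) := by
      refine Real.rpow_le_rpow ?_ ?_ (by linarith)
      · exact mul_nonneg (by positivity) (zero_le_one.trans (radK_one_le _))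
      · exact mul_le_mul_of_nonneg_left hrD (by positivity)
    have b2 : G ≤ G ^ (1 + ε) := by
      calc G = G ^ (1 : ℝ) := (Real.rpow_one G).symm
        _ ≤ G ^ (1 + ε) := Real.rpow_le_rpow_of_exponent_le hG (by linarith)
    have b3 : 0 ≤ (radK (a * b) ^ 2 * D) ^ (1 + ε) := Real.rpow_nonneg (by positivity) _
    have hG0 : 0 ≤ G := by linarith
    calc C * G * (radK (a * b) ^ 2 * radK (x - y)) ^ (1 + ε)
        ≤ C * G * (radK (a * b) ^ 2 * D) ^ (1 + ε) :=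
          mul_le_mul_of_nonneg_left b1 (by positivity)
      _ = C * (G * (radK (a * b) ^ 2 * D) ^ (1 + ε)) := by ring
      _ ≤ C * (G ^ (1 + ε) * (radK (a * b) ^ 2 * D) ^ (1 + ε)) := by
          refine mul_le_mul_of_nonneg_left ?_ (by linarith)
          exact mul_le_mul_of_nonneg_right b2 b3
      _ = C * (5 * (radK (a * b) * |(m : ℝ)|) ^ 2) ^ (1 + ε) := by
          rw [← Real.mul_rpow hG0 (by positivity)]
          congr 2
          have : G * (radK (a * b) ^ 2 * D) = radK (a * b) ^ 2 * (G * D) := by ring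
          rw [this, hGD]
          ring
  · intro hcop
    have hxy : a * τ b ≠ τ a * b := by
      intro h
      rw [h, sub_self] at hab
      exact hmr hab.symm
    have a1 := hC a b 1 (a * τ b) (τ a * b) ha hb one_ne_zero (one_mul _).symm
      (one_mul _).symm hcop hxy
    have e0 : ∏ χ : K →+* ℂ, ‖χ ((1 : 𝓞 K) : K)‖ = 1 := by
      refine Finset.prod_eq_one fun χ _ => ?_
      simp
    rw [e0, mul_one, hab] at a1
    have hZ0 : 0 ≤ radZ m := by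
      unfold radZ
      positivity
    apply sq_bound (by positivity) hC1 hε
    refine a1.trans (mul_le_mul_of_nonneg_left ?_ (by linarith))
    refine Real.rpow_le_rpow ?_ ?_ (by linarith)
    · exact mul_nonneg (by positivity) (zero_le_one.trans (radK_one_le _))
    · have b1 : radK ((m : 𝓞 K) * r) ≤ radK (m : 𝓞 K) * radK r :=
        radK_mul_le _ _ (by exact_mod_cast hm) (r_ne hr)
      have b2 : radK r ≤ 5 := by
        have := radK_le r (r_ne hr)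
        rwa [prod_r hfin hr] at this
      have b3 : radK (m : 𝓞 K) ≤ radZ m ^ 2 := by
        have h5' : ∃ s : K, s ^ 2 = 5 := by
          refine ⟨(r : K), ?_⟩
          have := congrArg (algebraMap (𝓞 K) K) hr
          rwa [map_pow, map_ofNat] at this
        exact (Pool.Agent.N2.GA.t K hfin h5' m hm).1
      have b4 : radK ((m : 𝓞 K) * r) ≤ radZ m ^ 2 * 5 :=
        b1.trans (mul_le_mul b3 b2 (zero_le_one.trans (radK_one_le _)) (by positivity))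
      calc radK (a * b) ^ 2 * radK ((m : 𝓞 K) * r) ≤ radK (a * b) ^ 2 * (radZ m ^ 2 * 5) :=
            mul_le_mul_of_nonneg_left b4 (by positivity)
        _ = 5 * (radK (a * b) * radZ m) ^ 2 := by ring

/-- the height of a triple in terms of the three pairs -/
theorem height_le {A1 B1 C1 A2 B2 C2 X : ℝ} (a1 : 0 ≤ A1) (b1 : 0 ≤ B1) (c1 : 0 ≤ C1)
    (a2 : 0 ≤ A2) (b2 : 0 ≤ B2) (c2 : 0 ≤ C2) (ta : A2 ≤ B2 + C2) (tb : B2 ≤ C2 + A2)
    (tc : C2 ≤ A2 + B2) (h1 : A1 * B2 ≤ X) (h2 : A2 * B1 ≤ X) (h3 : B1 * C2 ≤ X)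
    (h4 : B2 * C1 ≤ X) (h5 : C1 * A2 ≤ X) (h6 : C2 * A1 ≤ X) :
    max A1 (max B1 C1) * max A2 (max B2 C2) ≤ 2 * X := by
  have hX : 0 ≤ X := le_trans (by positivity) h1
  have key : ∀ P Q : ℝ, (P = A1 ∨ P = B1 ∨ P = C1) → (Q = A2 ∨ Q = B2 ∨ Q = C2) →
      P * Q ≤ 2 * X := by
    rintro P Q (rfl | rfl | rfl) (rfl | rfl | rfl) <;> nlinarith
  apply key
  · rcases max_choice A1 (max B1 C1) with h | h
    · exact Or.inl h
    · rcases max_choice B1 C1 with h' | h'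
      · exact Or.inr (Or.inl (h.trans h'))
      · exact Or.inr (Or.inr (h.trans h'))
  · rcases max_choice A2 (max B2 C2) with h | h
    · exact Or.inl h
    · rcases max_choice B2 C2 with h' | h'
      · exact Or.inr (Or.inl (h.trans h'))
      · exact Or.inr (Or.inr (h.trans h'))

end Pool.Agent.Helper8.CD
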