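import Pool.Graph.R_pool_sql_team_seeded_63374d34.N186.GA.NF
import Pool.Graph.R_pool_sql_team_seeded_63374d34.N564.GA.SymK

/-!
# Radicals and conjugates in quadratic fields
-/

set_option autoImplicit false

namespace Pool.Agent.Helper8.CD

open NumberField IsDedekindDomain Pool.Agent.N251.GA Pool.Agent.N186.GANF

variable {K : Type} [Field K] [NumberField K]

theorem absNorm_comap (τ : 𝓞 K ≃+* 𝓞 K) (I : Ideal (𝓞 K)) :
    Ideal.absNorm (I.comap (τ : 𝓞 K →+* 𝓞 K)) = Ideal.absNorm I := by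
  rw [Ideal.absNorm_apply, Ideal.absNorm_apply, Submodule.cardQuot_apply,
    Submodule.cardQuot_apply]
  refine Nat.card_congr (Ideal.quotientEquiv _ _ τ ?_).toEquiv
  exact (Ideal.map_comap_of_surjective (τ : 𝓞 K →+* 𝓞 K) τ.surjective I).symm

/-- the radical of the conjugate -/
theorem radK_tau (τ : 𝓞 K ≃+* 𝓞 K) (x : 𝓞 K) : radK (τ x) = radK x := by
  unfold radK
  rw [← finprod_comp_equiv (HeightOneSpectrum.equivOfRingEquiv τ)]
  refine finprod_congr fun P => ?_
  have h1 : (HeightOneSpectrum.equivOfRingEquiv τ P).asIdeal =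
      P.asIdeal.comap (τ.symm : 𝓞 K →+* 𝓞 K) := rfl
  have h2 : τ x ∈ (HeightOneSpectrum.equivOfRingEquiv τ P).asIdeal ↔ x ∈ P.asIdeal := by
    rw [h1, Ideal.mem_comap]
    show τ.symm (τ x) ∈ P.asIdeal ↔ x ∈ P.asIdeal
    rw [RingEquiv.symm_apply_apply]
  have h3 : Ideal.absNorm (HeightOneSpectrum.equivOfRingEquiv τ P).asIdeal =
      Ideal.absNorm P.asIdeal := by
    rw [h1]
    exact absNorm_comap τ.symm P.asIdeal
  rw [h3]
  exact finprod_congr_Prop (propext h2) fun _ => rfl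

theorem radK_mul_cop {x y : 𝓞 K} (hx : x ≠ 0) (hy : y ≠ 0) (h : IsCoprime x y) :
    radK x * radK y ≤ radK (x * y) := by
  classical
  rw [radK_eq x hx, radK_eq y hy, radK_eq (x * y) (mul_ne_zero hx hy), ← Finset.prod_union]
  · apply prod_mono
    intro P hP
    rw [Finset.mem_union, Set.Finite.mem_toFinset, Set.Finite.mem_toFinset] at hP
    rw [Set.Finite.mem_toFinset]
    rcases hP with hP | hP
    · exact Ideal.mul_mem_right _ _ hP
    · exact Ideal.mul_mem_left _ _ hP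
  · rw [Finset.disjoint_left]
    intro P hP hP2
    rw [Set.Finite.mem_toFinset] at hP hP2
    obtain ⟨u, v, huv⟩ := h
    apply P.isPrime.ne_top
    rw [Ideal.eq_top_iff_one, ← huv]
    exact Ideal.add_mem _ (Ideal.mul_mem_left _ _ hP) (Ideal.mul_mem_left _ _ hP2)

omit [NumberField K] in
theorem cop_iff {a b c : 𝓞 K} (h : a + b + c = 0) :
    Ideal.span {a, b, c} = (⊤ : Ideal (𝓞 K)) ↔ IsCoprime a b := by
  have hc : c ∈ Ideal.span {a, b} := by
    have e : c = -1 * a + -1 * b := by linear_combination h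
    rw [e]
    exact Ideal.mem_span_pair.2 ⟨-1, -1, rfl⟩
  have h1 : Ideal.span {a, b, c} = Ideal.span ({a, b} : Set (𝓞 K)) := by
    apply le_antisymm
    · rw [Ideal.span_le]
      intro x hx
      rcases hx with rfl | rfl | rfl
      · exact Ideal.subset_span (by simp)
      · exact Ideal.subset_span (by simp)
      · exact hc
    · apply Ideal.span_mono
      intro x hx
      rcases hx with rfl | rfl <;> simp
  rw [h1, Ideal.eq_top_iff_one, Ideal.mem_span_pair]
  exact Iff.rfl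

theorem radK_one_le (x : 𝓞 K) : 1 ≤ radK x := one_le_radK x

theorem radK_neg (x : 𝓞 K) : radK (-x) = radK x := by
  unfold radK
  refine finprod_congr fun P => finprod_congr_Prop (propext ?_) fun _ => rfl
  exact Ideal.neg_mem_iff P.asIdeal

omit [NumberField K] in
/-- a greatest common divisor -/
theorem exists_gcd [IsPrincipalIdealRing (𝓞 K)] {x y : 𝓞 K} (hx : x ≠ 0) :
    ∃ g x' y' : 𝓞 K, g ≠ 0 ∧ x = g * x' ∧ y = g * y' ∧ IsCoprime x' y' := by
  obtain ⟨g, hg⟩ := (IsPrincipalIdealRing.principal (Ideal.span {x, y})).principal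
  have hg' : Ideal.span {x, y} = Ideal.span {g} := hg
  have h1 : x ∈ Ideal.span {g} := by
    rw [← hg']
    exact Ideal.subset_span (by simp)
  have h2 : y ∈ Ideal.span {g} := by
    rw [← hg']
    exact Ideal.subset_span (by simp)
  have h3 : g ∈ Ideal.span {x, y} := by
    rw [hg']
    exact Ideal.mem_span_singleton_self g
  obtain ⟨x', hx'⟩ := Ideal.mem_span_singleton'.1 h1
  obtain ⟨y', hy'⟩ := Ideal.mem_span_singleton'.1 h2
  obtain ⟨u, v, huv⟩ := Ideal.mem_span_pair.1 h3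
  have hg0 : g ≠ 0 := by
    rintro rfl
    apply hx
    rw [← hx', mul_zero]
  refine ⟨g, x', y', hg0, by rw [← hx']; ring, by rw [← hy']; ring, u, v, ?_⟩
  apply mul_left_cancel₀ hg0
  rw [← hx', ← hy'] at huv
  linear_combination huv

/-- the second embedding -/
theorem second (τ : 𝓞 K ≃+* 𝓞 K) (φ : K →+* ℂ) :
    ∃ ψ : K →+* ℂ, ∀ x : 𝓞 K, ψ (x : K) = φ ((τ x : 𝓞 K) : K) := by
  refine ⟨φ.comp (IsFractionRing.ringEquivOfRingEquiv (A := 𝓞 K) (B := 𝓞 K) (K := K) (L := K)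
    τ : K →+* K), fun x => ?_⟩
  have := IsFractionRing.ringEquivOfRingEquiv_algebraMap (K := K) (L := K) τ x
  show φ (IsFractionRing.ringEquivOfRingEquiv (K := K) (L := K) τ (algebraMap (𝓞 K) K x)) = _
  rw [this]

open Pool.Agent.N564.GASymK in
/-- a product over the embeddings has two factors -/
theorem prod_two (hfin : Module.finrank ℚ K = 2) {r : 𝓞 K} (hr : r ^ 2 = 5)
    (τ : 𝓞 K ≃+* 𝓞 K) (hτ : (τ : 𝓞 K →+* 𝓞 K) ≠ RingHom.id (𝓞 K)) :
    ∃ φ ψ : K →+* ℂ, (∀ x : 𝓞 K, ψ (x : K) = φ ((τ x : 𝓞 K) : K)) ∧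
      (∀ x : 𝓞 K, φ (x : K) = ψ ((τ x : 𝓞 K) : K)) ∧
      ∀ f : (K →+* ℂ) → ℝ, ∏ χ, f χ = f φ * f ψ := by
  classical
  obtain ⟨φ⟩ : Nonempty (K →+* ℂ) := inferInstance
  obtain ⟨ψ, hψ⟩ := second τ φ
  have hτr : τ r = -r := tau_r hfin hr (τ : 𝓞 K →+* 𝓞 K) hτ
  have hr0 : φ (r : K) ≠ 0 := by
    intro h
    have h1 := norm_r hr φ
    rw [h] at h1
    norm_num at h1
  have hne : φ ≠ ψ := by
    intro h
    have h1 := hψ r
    rw [← h, hτr] at h1
    have h2 : φ ((-r : 𝓞 K) : K) = -φ (r : K) := by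
      push_cast
      rw [map_neg]
    rw [h2] at h1
    apply hr0
    have h3 : 2 * φ (r : K) = 0 := by linear_combination h1
    rcases mul_eq_zero.1 h3 with h4 | h4
    · exact absurd h4 two_ne_zero
    · exact h4
  have huniv : (Finset.univ : Finset (K →+* ℂ)) = {φ, ψ} := by
    symm
    apply Finset.eq_univ_of_card
    rw [Finset.card_pair hne, card_emb hfin]
  refine ⟨φ, ψ, hψ, fun x => ?_, fun f => ?_⟩
  · rw [hψ]
    obtain ⟨u, v, hu, -⟩ := exists_xy hfin hr (τ : 𝓞 K →+* 𝓞 K) hτ x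
    have h2 : τ (τ x) = x := by
      have h3 : x + τ x = (u : 𝓞 K) := hu
      have h4 := congrArg τ h3
      rw [map_add, map_intCast] at h4
      linear_combination h4 - h3
    rw [h2]
  · rw [huniv, Finset.prod_pair hne]

omit [NumberField K] in
theorem norm_tau (τ : 𝓞 K ≃+* 𝓞 K) (x : 𝓞 K) : Algebra.norm ℤ (τ x) = Algebra.norm ℤ x :=
  Algebra.norm_eq_of_algEquiv (RingEquiv.toIntAlgEquiv τ) x

end Pool.Agent.Helper8.CD
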